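import Mathlib
import Pool.Agent.H.MP_f8f5a4_an.A

namespace Pool.Agent.H.MP_1b52a3_lc

open MeasureTheory Set Filter Topology TopologicalSpace Function

theorem cover {Z : Type} [TopologicalSpace Z] [R1Space Z] [MeasurableSpace Z] [BorelSpace Z]
    (ν : Measure Z) [IsFiniteMeasure ν] [ν.InnerRegularCompactLTTop] {τ : ℕ → C(Z, Z)}
    {τ₀ : C(Z, Z)} (hτ : Tendsto τ atTop (𝓝 τ₀)) (mp : ∀ k, MeasurePreserving (τ k) ν ν)
    (mp₀ : MeasurePreserving τ₀ ν ν) (A : ℕ → Set Z) (hA : ∀ i, NullMeasurableSet (A i) ν)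
    (cov : ∀ᵐ z ∂ν, ∃ i, z ∈ A i) :
    Tendsto (fun k => ν {z | ¬ ∃ i, τ k z ∈ A i ∧ τ₀ z ∈ A i}) atTop (𝓝 0) := by
  rw [ENNReal.tendsto_nhds_zero]
  intro ε hε
  have h1 : Tendsto (fun n => ν (⋂ i < n, τ₀ ⁻¹' (A i)ᶜ)) atTop
      (𝓝 (ν (⋂ n, ⋂ i < n, τ₀ ⁻¹' (A i)ᶜ))) :=
    tendsto_measure_iInter_atTop (fun n => NullMeasurableSet.iInter fun i =>
      NullMeasurableSet.iInter fun _ => (hA i).compl.preimage mp₀.quasiMeasurePreserving)
      (fun n m hnm => biInter_subset_biInter_left fun i (hi : i < n) => hi.trans_le hnm)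
      ⟨0, measure_ne_top _ _⟩
  have h2 : ν (⋂ n, ⋂ i < n, τ₀ ⁻¹' (A i)ᶜ) = 0 := by
    refine measure_mono_null ?_ (ae_iff.1 (mp₀.quasiMeasurePreserving.ae cov))
    rintro z hz ⟨i, hi⟩
    simp only [mem_iInter] at hz
    exact hz (i + 1) i i.lt_succ_self hi
  rw [h2, ENNReal.tendsto_nhds_zero] at h1
  obtain ⟨n, hn⟩ := (h1 (ε / 2) (ENNReal.half_pos hε.ne')).exists
  have h3 := tendsto_finsetSum (Finset.range n) fun i _ =>
    tendsto_measure_symmDiff_preimage_nhds_zero hτ (Eventually.of_forall mp) mp₀ (hA i)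
      (measure_ne_top _ _)
  rw [Finset.sum_const_zero, ENNReal.tendsto_nhds_zero] at h3
  filter_upwards [h3 (ε / 2) (ENNReal.half_pos hε.ne')] with k hk
  refine (measure_mono (t := (⋂ i < n, τ₀ ⁻¹' (A i)ᶜ) ∪ ⋃ i ∈ Finset.range n,
    symmDiff (τ k ⁻¹' A i) (τ₀ ⁻¹' A i)) ?_).trans ((measure_union_le _ _).trans ?_)
  · intro z hz
    by_cases h : z ∈ ⋂ i < n, τ₀ ⁻¹' (A i)ᶜ
    · exact Or.inl h
    · simp only [mem_iInter, not_forall, mem_preimage, mem_compl_iff, not_not] at h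
      obtain ⟨i, hi, h⟩ := h
      exact Or.inr (mem_biUnion (Finset.mem_range.2 hi) (Or.inr ⟨h, fun hh => hz ⟨i, hh, h⟩⟩))
  · rw [← ENNReal.add_halves ε]
    exact add_le_add hn ((measure_biUnion_finset_le _ _).trans hk)

/-- the Cantor group -/
abbrev P := ℕ → ZMod 2
/-- sequences in the Cantor group -/
abbrev Om := ℕ → P

/-- Haar measure -/
noncomputable def kp : Measure P := Measure.addHaarMeasure ⊤
/-- Haar measure -/
noncomputable def lam : Measure Om := Measure.addHaarMeasure ⊤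

instance : kp.IsAddHaarMeasure := by unfold kp; infer_instance
instance : lam.IsAddHaarMeasure := by unfold lam; infer_instance
instance : IsProbabilityMeasure kp :=
  ⟨by simpa [kp] using Measure.addHaarMeasure_self (K₀ := (⊤ : PositiveCompacts P))⟩
instance : IsProbabilityMeasure lam :=
  ⟨by simpa [lam] using Measure.addHaarMeasure_self (K₀ := (⊤ : PositiveCompacts Om))⟩

instance : NullSingletonClass kp := ⟨fun x => by
  by_contra h
  refine measure_ne_top kp univ (infinite_univ.meas_eq_top ⟨kp {x}, h, fun y _ => ?_⟩)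
  rw [Measure.addHaar_singleton kp x, Measure.addHaar_singleton kp y]⟩

theorem comp_mp {s : ℕ → ℕ} (hs : Injective s) :
    MeasurePreserving (fun y : Om => y ∘ s) lam lam :=
  AddMonoidHom.measurePreserving (f := AddMonoidHom.mk' (fun y : Om => y ∘ s) fun _ _ => rfl)
    (continuous_pi fun n => continuous_apply (s n)) hs.surjective_comp_right rfl

theorem ae_inj : ∀ᵐ x ∂lam, Injective x := by
  have : ∀ a b : ℕ, ∀ᵐ x ∂lam, x a = x b → a = b := fun a b => by
    by_cases h : a = b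
    · exact Eventually.of_forall fun _ _ => h
    have m : MeasurePreserving (fun x : Om => x a - x b) lam kp :=
      AddMonoidHom.measurePreserving (f := AddMonoidHom.mk' (fun x : Om => x a - x b)
        fun x y => by simp only [Pi.add_apply]; abel)
        (show Continuous fun x : Om => x a - x b by fun_prop)
        (fun p => ⟨Pi.single a p, by simp [Ne.symm h]⟩) (by simp)
    filter_upwards [m.quasiMeasurePreserving.ae (Measure.ae_ne kp 0)] with x hx hh
    exact absurd (sub_eq_zero.2 hh) hx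
  filter_upwards [ae_all_iff.2 fun a => ae_all_iff.2 (this a)] with x hx a b
  exact hx a b

variable {H : Type} [Group H] [MetricSpace H] [CompleteSpace H] [SecondCountableTopology H]
  [IsTopologicalGroup H] [MeasurableSpace H] [BorelSpace H]

/-- pairs conjugate by a small element -/
def NN (ε : ℝ) : Set (H × H) := {p | ∃ h, dist h 1 < ε ∧ h * p.1 * h⁻¹ = p.2}

theorem nullN (ε : ℝ) {Z : Type} [MeasurableSpace Z] (ν : Measure Z) [IsFiniteMeasure ν]
    {Ψ : Z → H × H} (hΨ : Measurable Ψ) : NullMeasurableSet (Ψ ⁻¹' NN ε) ν := by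
  have : AnalyticSet (NN ε : Set (H × H)) := by
    have := (isOpen_lt (continuous_fst.dist continuous_const) continuous_const :
      IsOpen {q : H × H | dist q.1 1 < ε}).analyticSet_image
      (f := fun q : H × H => (q.2, q.1 * q.2 * q.1⁻¹)) (by fun_prop)
    convert this using 1
    ext p
    constructor
    · rintro ⟨h, h1, h2⟩
      exact ⟨(h, p.1), h1, Prod.ext rfl h2⟩
    · rintro ⟨q, h1, rfl⟩
      exact ⟨q.1, h1, rfl⟩
  exact (MP_f8f5a4_an.nullm (ν.map Ψ) this).preimage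
    (⟨hΨ, rfl⟩ : MeasurePreserving Ψ ν (ν.map Ψ)).quasiMeasurePreserving

theorem step1 (hr : ∀ w u v : H, dist (u * w) (v * w) = dist u v) {F : Om → H}
    (mF : Measurable F)
    (hF : ∀ x, Injective x → ∀ π : Equiv.Perm ℕ, ∃ h, h * F x * h⁻¹ = F (x ∘ π))
    {ε : ℝ} (hε : 0 < ε) (t : ℕ → ℕ → ℕ) (ht : ∀ k n, t k (t k n) = n) (blk : ℕ → ℕ)
    (hb : ∀ k n, t k n ≠ n → blk n = k) :
    Tendsto (fun k => lam {x | (F x, F (x ∘ t k)) ∉ NN (2 * ε)}) atTop (𝓝 0) := by
  have hb2 : ∀ n, blk (t (blk n) n) = blk n := fun n => by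
    by_cases h : t (blk n) n = n
    · rw [h]
    · exact hb _ _ (by rw [ht]; exact Ne.symm h)
  obtain ⟨π, hπ⟩ : ∃ π : P → ℕ → ℕ, ∀ g n, π g n = if g (blk n) = 1 then t (blk n) n else n :=
    ⟨_, fun _ _ => rfl⟩
  have inv : ∀ g, Involutive (π g) := fun g n => by
    by_cases h : g (blk n) = 1
    · rw [hπ g n, if_pos h, hπ, hb2, if_pos h, ht]
    · rw [hπ g n, if_neg h, hπ, if_neg h]
  have sh : ∀ g k, π (g + Pi.single k 1) = π g ∘ t k := fun g k => funext fun n => by
    by_cases h : blk n = k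
    · subst h
      have : ∀ a : ZMod 2, a + 1 = 1 ↔ ¬ a = 1 := by decide
      simp only [comp, hπ, hb2, Pi.add_apply, Pi.single_eq_same, this, ht]
      split_ifs <;> rfl
    · have : t k n = n := by_contra fun hh => h (hb _ _ hh)
      simp [hπ, this, h]
  have mΓ : Measurable fun z : P × Om => z.2 ∘ π z.1 := measurable_pi_lambda _ fun n => by
    simp only [comp, hπ, apply_ite]
    exact Measurable.ite (measurableSet_eq_fun ((measurable_pi_apply _).comp measurable_fst)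
      measurable_const) ((measurable_pi_apply _).comp measurable_snd)
      ((measurable_pi_apply _).comp measurable_snd)
  have pΓ : MeasurePreserving (fun z : P × Om => z.2 ∘ π z.1) (kp.prod lam) lam :=
    measurePreserving_snd.comp ((MeasurePreserving.id kp).skew_product (g := fun g x => x ∘ π g)
      mΓ (Eventually.of_forall fun g => (comp_mp (inv g).injective).map_eq))
  obtain ⟨d, hd⟩ := exists_dense_seq H
  haveI : BorelSpace (P × Om) := Prod.borelSpace
  haveI : (kp.prod lam).Regular := Measure.Regular.of_sigmaCompactSpace_of_isLocallyFiniteMeasure _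
  obtain ⟨Φ, hΦ⟩ : ∃ Φ : C(P, C(P × Om, P × Om)), ∀ a z, Φ a z = (z.1 + a, z.2) :=
    ⟨ContinuousMap.curry ⟨fun q : P × (P × Om) => (q.2.1 + q.1, q.2.2), by fun_prop⟩,
      fun _ _ => rfl⟩
  have pΦ : ∀ a, MeasurePreserving (Φ a) (kp.prod lam) (kp.prod lam) := fun a => by
    rw [funext (hΦ a)]
    exact (measurePreserving_add_right kp a).prod (MeasurePreserving.id lam)
  have lim : Tendsto (fun k => (Pi.single k 1 : P)) atTop (𝓝 0) := tendsto_pi_nhds.2 fun n =>
    tendsto_const_nhds.congr' ((eventually_gt_atTop n).mono fun k hk => by simp [hk.ne])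
  have := cover (kp.prod lam) ((Φ.continuous.tendsto 0).comp lim) (fun k => pΦ _) (pΦ 0)
    (fun i => (fun z : P × Om => (d i * F z.2 * (d i)⁻¹, F (z.2 ∘ π z.1))) ⁻¹' NN ε)
    (fun i => nullN ε _ ((((mF.comp measurable_snd).const_mul _).mul_const _).prodMk
      (mF.comp mΓ))) (by
      filter_upwards [measurePreserving_snd.quasiMeasurePreserving.ae ae_inj] with z hz
      obtain ⟨h, hh⟩ := hF z.2 hz (inv z.1).toPerm
      obtain ⟨i, hi⟩ := hd.exists_dist_lt h hε
      refine ⟨i, h * (d i)⁻¹, by rw [← hr (d i)]; simpa using hi, ?_⟩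
      dsimp only
      rw [show F (z.2 ∘ π z.1) = h * F z.2 * h⁻¹ from hh.symm]
      group)
  refine tendsto_of_tendsto_of_tendsto_of_le_of_le tendsto_const_nhds this (fun _ => zero_le)
    fun k => ?_
  have mt : Measurable fun x : Om => x ∘ t k := measurable_pi_lambda _ fun n => measurable_pi_apply _
  refine (pΓ.measure_preimage (nullN (2 * ε) lam (mF.prodMk (mF.comp mt))).compl).symm.le.trans
    (measure_mono ?_)
  rintro z hz ⟨i, ⟨h, h1, h2⟩, h', h3, h4⟩
  simp only [comp_apply, hΦ, add_zero, sh] at h2 h4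
  refine hz ⟨h * h'⁻¹, ?_, ?_⟩
  · rw [← hr h']
    have := dist_triangle_right h h' 1
    simp only [inv_mul_cancel_right, one_mul]
    linarith
  · show h * h'⁻¹ * F (z.2 ∘ π z.1) * (h * h'⁻¹)⁻¹ = F (z.2 ∘ π z.1 ∘ t k)
    rw [← h2, ← h4]
    group

theorem step2 (hr : ∀ w u v : H, dist (u * w) (v * w) = dist u v) {F : Om → H}
    (mF : Measurable F)
    (hF : ∀ x, Injective x → ∀ π : Equiv.Perm ℕ, ∃ h, h * F x * h⁻¹ = F (x ∘ π))
    {ε : ℝ} (hε : 0 < ε) {δ : ENNReal} (hδ : 0 < δ) :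
    ∃ N, ∀ a ≥ N, ∀ b ≥ N, lam {x | (F x, F (x ∘ Equiv.swap a b)) ∉ NN ε} ≤ δ := by
  classical
  by_contra hn
  push Not at hn
  choose a ha b hb hab using hn
  obtain ⟨M, hM⟩ : ∃ M : ℕ → ℕ, ∀ k, M (k + 1) = max (a (M k)) (b (M k)) + 1 :=
    ⟨fun k => Nat.rec 0 (fun _ m => max (a m) (b m) + 1) k, fun _ => rfl⟩
  have mono : Monotone M := monotone_nat_of_le_succ fun k => by
    have := ha (M k)
    rw [hM]
    omega
  have sup : ∀ k n, Equiv.swap (a (M k)) (b (M k)) n ≠ n → M k ≤ n ∧ n < M (k + 1) := by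
    intro k n h
    have h1 := ha (M k)
    have h2 := hb (M k)
    rw [hM]
    rcases Equiv.eq_or_eq_of_swap_apply_ne_self h with rfl | rfl <;> omega
  have := step1 hr mF hF (half_pos hε) (fun k => Equiv.swap (a (M k)) (b (M k)))
    (fun k n => Equiv.swap_apply_self _ _ _)
    (fun n => if h : ∃ k, Equiv.swap (a (M k)) (b (M k)) n ≠ n then h.choose else 0)
    fun k n h => by
      have h' : ∃ k, Equiv.swap (a (M k)) (b (M k)) n ≠ n := ⟨k, h⟩
      rw [dif_pos h']
      have h1 := sup _ _ h'.choose_spec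
      have h2 := sup _ _ h
      rcases lt_trichotomy h'.choose k with hk | hk | hk
      · have := mono (Nat.succ_le_of_lt hk)
        simp only [Nat.succ_eq_add_one] at this
        omega
      · exact hk
      · have := mono (Nat.succ_le_of_lt hk)
        simp only [Nat.succ_eq_add_one] at this
        omega
  rw [mul_div_cancel₀ _ two_ne_zero, ENNReal.tendsto_nhds_zero] at this
  obtain ⟨k, hk⟩ := (this δ hδ).exists
  exact absurd hk (not_le.2 (hab _))

theorem tsi (hr : ∀ w u v : H, dist (u * w) (v * w) = dist u v) {F : Om → H}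
    (mF : Measurable F)
    (hF : ∀ x, Injective x → ∀ π : Equiv.Perm ℕ, ∃ h, h * F x * h⁻¹ = F (x ∘ π)) :
    ∃ x y : Om, Injective x ∧ Injective y ∧ (∃ n, y n ∉ range x) ∧ ∃ h, h * F y * h⁻¹ = F x := by
  choose N hN using fun j : ℕ => step2 hr mF hF (show (0 : ℝ) < (1 / 2) ^ j by positivity)
    (δ := ENNReal.ofReal ((1 / 2) ^ j)) (ENNReal.ofReal_pos.2 (by positivity))
  obtain ⟨p, hp⟩ : ∃ p : ℕ → ℕ, ∀ j, p j = j + ∑ i ∈ Finset.range (j + 1), N i :=
    ⟨_, fun _ => rfl⟩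
  have p1 : ∀ j, N j ≤ p j := fun j => by rw [hp, Finset.sum_range_succ]; omega
  have p2 : ∀ j, p j < p (j + 1) := fun j => by rw [hp, hp, Finset.sum_range_succ _ (j + 1)]; omega
  have p3 : ∀ j, j ≤ p j := fun j => by rw [hp]; omega
  obtain ⟨σ, σ0, hσ⟩ : ∃ σ : ℕ → Equiv.Perm ℕ, σ 0 = 1 ∧
      ∀ j, σ (j + 1) = σ j * Equiv.swap (p j) (p (j + 1)) :=
    ⟨fun j => Nat.rec 1 (fun j s => s * Equiv.swap (p j) (p (j + 1))) j, rfl, fun _ => rfl⟩
  have s1 : ∀ j, σ j (p j) = p 0 := fun j => by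
    induction j with
    | zero => simp [σ0]
    | succ j ih => rw [hσ, Equiv.Perm.mul_apply, Equiv.swap_apply_right, ih]
  have s2 : ∀ n j, n + 1 ≤ j → σ j n = σ (n + 1) n := fun n j hj => by
    induction j, hj using Nat.le_induction with
    | base => rfl
    | succ j hj ih =>
      have := p3 j
      have := p2 j
      rw [hσ, Equiv.Perm.mul_apply, Equiv.swap_apply_of_ne_of_ne (by omega) (by omega), ih]
  obtain ⟨s, hs⟩ : ∃ s : ℕ → ℕ, ∀ n, s n = σ (n + 1) n := ⟨_, fun _ => rfl⟩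
  have si : Injective s := fun n m h => by
    rw [hs, hs, ← s2 n (n + m + 1) (by omega), ← s2 m (n + m + 1) (by omega)] at h
    exact (σ _).injective h
  have s0 : ∀ n, s n ≠ p 0 := fun n h => by
    rw [hs, ← s1 (n + 1)] at h
    have := (σ _).injective h
    have := p3 (n + 1)
    omega
  haveI : lam.Regular := Measure.Regular.of_sigmaCompactSpace_of_isLocallyFiniteMeasure _
  have ce : Continuous fun r : ℕ × Om => r.2 r.1 :=
    continuous_prod_of_discrete_left.2 fun m => continuous_apply m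
  have cf : Continuous fun q : (ℕ → ℕ) × Om => q.2 ∘ q.1 := continuous_pi fun n =>
    ce.comp (f := fun q : (ℕ → ℕ) × Om => (q.1 n, q.2)) (by fun_prop)
  obtain ⟨Φ, hΦ⟩ : ∃ Φ : C(ℕ → ℕ, C(Om, Om)), ∀ a z, Φ a z = z ∘ a :=
    ⟨ContinuousMap.curry ⟨_, cf⟩, fun _ _ => rfl⟩
  have pΦ : ∀ a, Injective a → MeasurePreserving (Φ a) lam lam := fun a ha => by
    rw [funext (hΦ a)]
    exact comp_mp ha
  have lim : Tendsto (fun j => (σ j : ℕ → ℕ)) atTop (𝓝 s) := tendsto_pi_nhds.2 fun n =>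
    tendsto_const_nhds.congr' ((eventually_ge_atTop (n + 1)).mono fun j hj =>
      (hs n).trans (s2 n j hj).symm)
  obtain ⟨d, hd⟩ := exists_dense_seq H
  have a1 : ∀ m : ℕ, ∀ᵐ y ∂lam, ∃ᶠ j in atTop,
      dist (F (y ∘ σ j)) (F (y ∘ s)) < 2 * (1 / ((m : ℝ) + 1)) := fun m => by
    have := cover lam ((Φ.continuous.tendsto s).comp lim) (fun k => pΦ _ (σ k).injective)
      (pΦ s si) (fun i => F ⁻¹' Metric.ball (d i) (1 / ((m : ℝ) + 1)))
      (fun i => (mF Metric.isOpen_ball.measurableSet).nullMeasurableSet)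
      (Eventually.of_forall fun y => hd.exists_dist_lt _ (by positivity))
    simp only [frequently_atTop]
    refine ae_all_iff.2 fun J => ?_
    rw [ae_iff, ← nonpos_iff_eq_zero]
    refine ge_of_tendsto this ((eventually_ge_atTop J).mono fun j hj => measure_mono ?_)
    rintro y hy ⟨i, h1, h2⟩
    refine hy ⟨j, hj, ?_⟩
    simp only [comp_apply, hΦ, mem_preimage, Metric.mem_ball] at h1 h2
    linarith [dist_triangle_right (F (y ∘ σ j)) (F (y ∘ s)) (d i)]
  have a2 : ∀ᵐ y ∂lam, ∀ᶠ j in atTop, y ∉ (fun y : Om => y ∘ σ j) ⁻¹'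
      {x | (F x, F (x ∘ Equiv.swap (p j) (p (j + 1)))) ∉ NN ((1 / 2) ^ j)} := by
    refine ae_eventually_notMem (ne_top_of_le_ne_top ?_ (ENNReal.tsum_le_tsum (g := fun n =>
      ENNReal.ofReal ((1 / 2) ^ n)) fun j => ?_))
    · rw [← ENNReal.ofReal_tsum_of_nonneg (fun n => by positivity) summable_geometric_two]
      exact ENNReal.ofReal_ne_top
    · refine le_trans ?_ (hN j _ (p1 j) _ ((p1 j).trans (p2 j).le))
      have m := comp_mp (σ j).injective
      conv_rhs => rw [← m.map_eq]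
      exact Measure.le_map_apply m.measurable.aemeasurable _
  obtain ⟨y, ⟨y1, y2⟩, y3⟩ := ((ae_inj.and a2).and (ae_all_iff.2 a1)).exists
  obtain ⟨J, hJ⟩ := eventually_atTop.1 y2
  have b1 : ∀ n, ∃ h, dist h 1 < (1 / 2) ^ (J + n) ∧
      h * F (y ∘ σ (J + n)) * h⁻¹ = F (y ∘ σ (J + n + 1)) := fun n => by
    obtain ⟨h, h1, h2⟩ := not_not.1 (hJ (J + n) (by omega))
    exact ⟨h, h1, by rw [hσ]; exact h2⟩
  choose h h1 h2 using b1
  obtain ⟨h0, hh0⟩ := hF y y1 (σ J)
  obtain ⟨k, k0, hk⟩ : ∃ k : ℕ → H, k 0 = h0 ∧ ∀ n, k (n + 1) = h n * k n :=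
    ⟨fun n => Nat.rec h0 (fun n a => h n * a) n, rfl, fun _ => rfl⟩
  have b2 : ∀ n, k n * F y * (k n)⁻¹ = F (y ∘ σ (J + n)) := fun n => by
    induction n with
    | zero => rw [k0]; exact hh0
    | succ n ih =>
      rw [hk, ← add_assoc, ← h2, ← ih]
      group
  obtain ⟨g, hg⟩ := cauchySeq_tendsto_of_complete (cauchySeq_of_le_geometric (f := k) (1 / 2) 1
    (by norm_num) fun n => by
      have := hr (k n) 1 (h n)
      rw [one_mul] at this
      rw [hk, this, dist_comm, one_mul]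
      exact (h1 n).le.trans (pow_le_pow_of_le_one (by norm_num) (by norm_num) (by omega)))
  have b3 : Tendsto (fun n => F (y ∘ σ n)) atTop (𝓝 (g * F y * g⁻¹)) := by
    rw [← tendsto_add_atTop_iff_nat J]
    simp only [add_comm _ J, ← b2]
    exact (hg.mul_const _).mul hg.inv
  refine ⟨y ∘ s, y, y1.comp si, y1, ⟨p 0, fun ⟨n, hn⟩ => s0 n (y1 hn)⟩, g, ?_⟩
  refine eq_of_forall_dist_le fun ε hε => ?_
  obtain ⟨m, hm⟩ := exists_nat_one_div_lt (show 0 < ε / 4 by positivity)
  obtain ⟨j, j1, j2⟩ := ((y3 m).and_eventually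
    (Metric.tendsto_nhds.1 b3 (ε / 2) (by positivity))).exists
  linarith [dist_triangle_left (g * F y * g⁻¹) (F (y ∘ s)) (F (y ∘ σ j))]

end Pool.Agent.H.MP_1b52a3_lc
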