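import Mathlib

namespace Pool.Agent.H.MP_1b52a3_lc

open MeasureTheory Set

variable {X : Type} [MeasurableSpace X]

/-- measure preserving bimeasurable bijections -/
def Aut (μ : Measure X) : Type := {S : X ≃ᵐ X // MeasurePreserving S μ μ}

/-- the weak topology -/
noncomputable instance (μ : Measure X) : TopologicalSpace (Aut μ) :=
  ⨅ (A : Set X) (_ : MeasurableSet A) (B : Set X) (_ : MeasurableSet B),
    TopologicalSpace.induced (fun S : Aut μ => μ.real (S.1 ⁻¹' A ∩ B)) inferInstance

/-- the Borel sets of the weak topology -/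
noncomputable instance (μ : Measure X) : MeasurableSpace (Aut μ) := borel _

/-- conjugacy modulo null sets -/
def ConjA (μ : Measure X) (S T : Aut μ) : Prop :=
  ∃ R : Aut μ, ∀ᵐ x ∂μ, S.1 x = R.1 (T.1 (R.1.symm x))

end Pool.Agent.H.MP_1b52a3_lc
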