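import Mathlib
import Pool.Agent.H.MP_1b52a3_lc.A
import Pool.Agent.H.MP_1b52a3_lc.Defs
import Pool.Agent.H.MP_86dbc5_an.A
import Pool.Agent.H.MP_86dbc5_an.B
import Pool.Agent.H.MP_86dbc5_an.C
import Pool.Agent.H.MP_190226_lc.A

namespace Pool.Agent.H.MP_1b52a3_lc

open MeasureTheory Set Filter Topology TopologicalSpace Function Pool.Agent.H.MP_86dbc5_an
  Pool.Agent.H.MP_190226_lc

/-- the infinite torus -/
abbrev Kt := ℕ → UnitAddCircle

/-- Haar measure -/
noncomputable def kt : Measure Kt := Measure.addHaarMeasure ⊤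

instance : kt.IsAddHaarMeasure := by unfold kt; infer_instance
instance : IsProbabilityMeasure kt :=
  ⟨by simpa [kt] using Measure.addHaarMeasure_self (K₀ := (⊤ : PositiveCompacts Kt))⟩

theorem half_ne : ZMod.toAddCircle (1 : ZMod 2) ≠ 0 := by
  rw [Ne, ZMod.toAddCircle_eq_zero]; decide

instance : NullSingletonClass kt := ⟨fun x => by
  by_contra h
  haveI : Nontrivial UnitAddCircle := ⟨_, _, half_ne⟩
  refine measure_ne_top kt univ (infinite_univ.meas_eq_top ⟨kt {x}, h, fun y _ => ?_⟩)
  rw [Measure.addHaar_singleton kt x, Measure.addHaar_singleton kt y]⟩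

/-- coordinates -/
noncomputable def co (n : ℕ) : Kt →+ UnitAddCircle := Pi.evalAddMonoidHom (fun _ => UnitAddCircle) n

theorem co_cont (n : ℕ) : Continuous (co n) := continuous_apply n

theorem co_sep (x y : Kt) (h : ∀ o, co o x = co o y) : x = y := funext h

/-- embedding in Baire space -/
def vl (p : P) (n : ℕ) : ℕ := (p n).val

theorem vl_inj : Injective vl := fun _ _ h => funext fun n => ZMod.val_injective 2 (congrFun h n)

/-- the rotation vector -/
noncomputable def rt (x : Om) : Kt := fun n => ((th (vl (x n)) : ℝ) : UnitAddCircle)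

theorem rt_cont : Continuous rt := continuous_pi fun n => (AddCircle.continuous_mk' 1).comp
  (th_cont.comp (continuous_pi fun k =>
    (continuous_of_discreteTopology (f := fun a : ZMod 2 => a.val)).comp
      ((continuous_apply k).comp (continuous_apply n))))

theorem rel (x : Om) (m : ℕ →₀ ℤ) (c : ℝ) (h : dm co m (rt x) = (c : UnitAddCircle)) :
    ∃ r : ℤ, 2 * (-c + ∑ o ∈ m.support, m o * th (vl (x o))) = r := by
  have e3 : dm co m (rt x) =
      ((∑ o ∈ m.support, m o * th (vl (x o)) : ℝ) : UnitAddCircle) := by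
    rw [dm_apply, QuotientAddGroup.mk_sum]
    refine Finset.sum_congr rfl fun o _ => ?_
    rw [← zsmul_eq_mul, AddCircle.coe_zsmul]
    rfl
  rw [e3, ← sub_eq_zero, ← AddCircle.coe_sub, AddCircle.coe_eq_zero_iff] at h
  obtain ⟨n, hn⟩ := h
  refine ⟨2 * n, ?_⟩
  simp only [zsmul_eq_mul, mul_one] at hn
  push_cast
  linarith

theorem rt_indep {x : Om} (hx : Injective x) (m : ℕ →₀ ℤ) (h : dm co m (rt x) = 0) :
    dm co m = 0 := by
  obtain ⟨r, hr⟩ := rel x m 0 (by simpa using h)
  have e : m.support = ∅ := by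
    rw [Finset.eq_empty_iff_forall_notMem]
    intro o ho
    rw [neg_zero, zero_add, ← Finset.add_sum_erase _ _ ho] at hr
    exact Finsupp.mem_support_iff.1 ho (th_indep _ (fun o => vl (x o)) m _ _
      (fun p hp hh => (Finset.mem_erase.1 hp).1 (hx (vl_inj hh))) r hr)
  ext1 z
  rw [dm_apply, e]
  rfl

variable {X : Type} [MeasurableSpace X] [StandardBorelSpace X] {μ : Measure X}
  [IsProbabilityMeasure μ]

omit [StandardBorelSpace X] [IsProbabilityMeasure μ] in
theorem conjA_iff (S T : Aut μ) :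
    ConjA μ S T ↔ ∃ U : Aut μ, ∀ᵐ x ∂μ, S.1 (U.1 x) = U.1 (T.1 x) := by
  refine exists_congr fun U => ⟨fun h => ?_, fun h => ?_⟩
  · filter_upwards [U.2.quasiMeasurePreserving.ae h] with x hx
    rw [hx, U.1.symm_apply_apply]
  · filter_upwards [(U.2.symm U.1).quasiMeasurePreserving.ae h] with x hx
    rwa [U.1.apply_symm_apply] at hx

theorem family [NullSingletonClass μ] : ∃ T : Om → Aut μ, Continuous T ∧
    (∀ x, Injective x → Ergodic (T x).1 μ) ∧
    (∀ x (π : Equiv.Perm ℕ), ConjA μ (T (x ∘ π)) (T x)) ∧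
    ∀ x y, ConjA μ (T x) (T y) → ∀ n, y n ∈ range x := by
  obtain ⟨f1, g1, hf1, hg1, gf1, fg1⟩ := iso01 (μ := kt)
  obtain ⟨f2, g2, hf2, hg2, gf2, fg2⟩ := iso01 (μ := μ)
  obtain ⟨f, g, hf, hg, gf, fg⟩ : ∃ (f : Kt → X) (g : X → Kt), MeasurePreserving f kt μ ∧
      MeasurePreserving g μ kt ∧ (∀ᵐ z ∂kt, g (f z) = z) ∧ ∀ᵐ x ∂μ, f (g x) = x := by
    refine ⟨_, _, hg2.comp hf1, hg1.comp hf2, ?_, ?_⟩
    · filter_upwards [gf1, hf1.quasiMeasurePreserving.ae fg2] with z h1 h2
      simp only [comp, h1, h2]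
    · filter_upwards [gf2, hf2.quasiMeasurePreserving.ae fg1] with z h1 h2
      simp only [comp, h1, h2]
  have hR : ∀ x, MeasurePreserving (fun z => z + rt x) kt kt := fun x =>
    measurePreserving_add_right kt _
  choose T hT1 hT2 using fun x => push hf hg gf fg (hR x) (T' := fun z => z - rt x)
    (measurable_sub_const _) fun z => by simp
  have hT : ∀ x, ∀ᵐ z ∂kt, T x (f z) = f (z + rt x) := fun x => by
    filter_upwards [hf.quasiMeasurePreserving.ae (hT2 x), gf] with z h1 h2
    simp only [h1, comp, h2]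
  have hT' : ∀ x, ∀ᵐ w ∂μ, g (T x w) = g w + rt x := fun x => by
    filter_upwards [hT2 x, ((hR x).comp hg).quasiMeasurePreserving.ae gf] with z h1 h2
    rw [h1]
    exact h2
  refine ⟨fun x => ⟨T x, hT1 x⟩, ?_, fun x hx => ⟨hT1 x, ⟨fun s hs hs2 => ?_⟩⟩, fun x π => ?_,
    fun x y h n => ?_⟩
  · refine continuous_iInf_rng.2 fun A => continuous_iInf_rng.2 fun hA =>
      continuous_iInf_rng.2 fun B => continuous_iInf_rng.2 fun hB => continuous_induced_rng.2 ?_
    obtain ⟨Φ, hΦ⟩ : ∃ Φ : C(Om, C(Kt, Kt)), ∀ x, ⇑(Φ x) = fun z => z + rt x :=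
      ⟨ContinuousMap.curry ⟨fun q : Om × Kt => q.2 + rt q.1,
        continuous_snd.add (rt_cont.comp continuous_fst)⟩, fun _ => rfl⟩
    have e : ∀ x, μ.real (T x ⁻¹' A ∩ B) = kt.real (Φ x ⁻¹' (f ⁻¹' A) ∩ f ⁻¹' B) := fun x => by
      rw [← hf.measureReal_preimage (((T x).measurable hA).inter hB).nullMeasurableSet,
        preimage_inter]
      refine measureReal_congr (EventuallyEq.inter ?_ (ae_eq_refl _))
      filter_upwards [hT x] with z hz
      show (T x (f z) ∈ A) = (f (Φ x z) ∈ A)
      rw [hz, hΦ]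
    refine Continuous.congr (continuous_iff_continuousAt.2 fun y => ?_) fun x => (e x).symm
    have hm : ∀ y, MeasurePreserving (Φ y) kt kt := fun y => by rw [hΦ]; exact hR y
    haveI : kt.Regular := Measure.Regular.of_sigmaCompactSpace_of_isLocallyFiniteMeasure kt
    have h := tendsto_measure_symmDiff_preimage_nhds_zero (Φ.continuous.tendsto y)
      (Eventually.of_forall hm) (hm y) (hf.measurable hA).nullMeasurableSet (measure_ne_top _ _)
    have h2 := (ENNReal.tendsto_toReal ENNReal.zero_ne_top).comp h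
    rw [ContinuousAt, tendsto_iff_dist_tendsto_zero]
    refine squeeze_zero (fun _ => dist_nonneg) (fun w => ?_) h2
    have k : ∀ P Q : Set Kt, kt.real (P ∩ f ⁻¹' B) - kt.real (Q ∩ f ⁻¹' B) ≤
        kt.real (symmDiff P Q) := fun P Q => by
      have : kt.real (P ∩ f ⁻¹' B) ≤ kt.real (Q ∩ f ⁻¹' B) + kt.real (symmDiff P Q) := by
        refine (measureReal_mono ?_).trans (measureReal_union_le _ _)
        rintro x ⟨x1, x2⟩
        by_cases hx : x ∈ Q
        · exact Or.inl ⟨hx, x2⟩
        · exact Or.inr (Or.inl ⟨x1, hx⟩)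
      linarith
    rw [Real.dist_eq, abs_sub_le_iff]
    exact ⟨k _ _, (k _ _).trans_eq (by rw [symmDiff_comm]; rfl)⟩
  · classical
    have h1 := inv_const co kt co_cont co_sep
      (Φ := fun z => if f z ∈ s then ZMod.toAddCircle (1 : ZMod 2) else 0)
      (Measurable.ite (hf.measurable hs) measurable_const measurable_const) (rt_indep hx) (by
        filter_upwards [hT x] with z hz
        have : T x (f z) ∈ s ↔ f z ∈ s := by
          rw [← mem_preimage (f := T x)]
          exact Iff.of_eq (congrArg (f z ∈ ·) hs2)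
        simp only [← hz, this])
    obtain ⟨z0, hz0⟩ := h1.exists
    have h2 : ∀ᵐ w ∂μ, (w ∈ s ↔ f z0 ∈ s) := by
      filter_upwards [hg.quasiMeasurePreserving.ae h1, fg] with w h3 h4
      have := E_inj (h3.trans hz0.symm)
      rw [h4] at this
      have h5 := half_ne
      by_cases a : w ∈ s <;> by_cases b : f z0 ∈ s <;> simp_all
    rw [eventuallyConst_set]
    by_cases b : f z0 ∈ s
    · exact Or.inl (h2.mono fun w hw => hw.2 b)
    · exact Or.inr (h2.mono fun w hw hh => b (hw.1 hh))
  · have hρ : MeasurePreserving (fun z : Kt => z ∘ π) kt kt :=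
      AddMonoidHom.measurePreserving (f := AddMonoidHom.mk' (fun y : Kt => y ∘ π) fun _ _ => rfl)
        (continuous_pi fun n => continuous_apply (π n)) π.injective.surjective_comp_right rfl
    obtain ⟨e, he, he2⟩ := push hf hg gf fg hρ (T' := fun z => z ∘ π.symm)
      (measurable_pi_lambda _ fun n => measurable_pi_apply _) fun z => by
        funext n; simp
    refine (conjA_iff _ _).2 ⟨⟨e, he⟩, ?_⟩
    filter_upwards [he2, (hT1 x).quasiMeasurePreserving.ae he2, hT' x,
      (hρ.comp hg).quasiMeasurePreserving.ae (hT (x ∘ π))] with w h1 h2 h3 h4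
    show T (x ∘ π) (e w) = e (T x w)
    simp only [comp_apply] at h1 h2 h4
    rw [h1, h2, h3, h4]
    rfl
  · obtain ⟨R, hR2⟩ := h
    have hR1 := R.2.symm R.1
    obtain ⟨m, hm⟩ := eig co kt co_cont co_sep (Φ := fun z => g (R.1.symm (f z)) n)
      ((measurable_pi_apply n).comp (hg.comp (hR1.comp hf)).measurable) (a := rt x)
      (b := rt y n) (by
        filter_upwards [hT x, hf.quasiMeasurePreserving.ae hR2,
          (hR1.comp hf).quasiMeasurePreserving.ae (hT' y)] with z h1 h2 h3
        rw [← h1, show T x (f z) = _ from h2, R.1.symm_apply_apply]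
        exact congrFun h3 n)
    obtain ⟨r, hr⟩ := rel x m _ hm
    by_contra hn
    have := th_indep m.support (fun o => vl (x o)) m (vl (y n)) (-1)
      (fun o _ hh => hn ⟨o, vl_inj hh⟩) r (by rw [← hr]; push_cast; ring)
    simp at this

theorem main [NullSingletonClass μ] {T₀ : X ≃ᵐ X} (hT : MeasurePreserving T₀ μ μ)
    (f : {S : Aut μ // Ergodic S.1 μ} → FG μ T₀) (mf : Measurable f) :
    ¬ ∀ S S', ConjA μ S.1 S'.1 ↔ ConjF μ T₀ (f S) (f S') := by
  classical
  intro h
  obtain ⟨T, cT, eT, pT, rT⟩ := family (μ := μ)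
  obtain ⟨x0, hx0⟩ := ae_inj.exists
  haveI : BorelSpace (FG μ T₀) := ⟨rfl⟩
  haveI : BorelSpace (Aut μ) := ⟨rfl⟩
  haveI := secondCount (μ := μ) (T₀ := T₀)
  haveI := topGroup hT
  haveI := complete hT
  haveI : SecondCountableTopology (SeparationQuotient (FG μ T₀)) :=
    SeparationQuotient.isQuotientMap_mk.secondCountableTopology SeparationQuotient.isOpenMap_mk
  haveI : IsTopologicalGroup (SeparationQuotient (FG μ T₀)) := {}
  borelize (SeparationQuotient (FG μ T₀))
  obtain ⟨r, hr⟩ : ∃ r : Om → Om, ∀ x, r x = if Injective x then x else x0 := ⟨_, fun _ => rfl⟩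
  have mr : Measurable r := by
    rw [funext hr]
    refine Measurable.ite ?_ measurable_id measurable_const
    exact measurableSet_setOfPred.2 (Measurable.forall fun a => Measurable.forall fun b =>
      (measurableSet_setOfPred.1 (measurableSet_eq_fun
        (measurable_pi_apply a) (measurable_pi_apply b))).imp measurable_const)
  have ir : ∀ x, Injective (r x) := fun x => by
    rw [hr]
    split_ifs with hx
    · exact hx
    · exact hx0
  have ri : ∀ x, Injective x → r x = x := fun x hx => by rw [hr, if_pos hx]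
  have key : ∀ S S' : FG μ T₀, ConjF μ T₀ S S' ↔ ∃ g : SeparationQuotient (FG μ T₀),
      g * SeparationQuotient.mk S' * g⁻¹ = SeparationQuotient.mk S := fun S S' => by
    rw [SeparationQuotient.surjective_mk.exists]
    refine exists_congr fun U => ?_
    rw [← SeparationQuotient.mk_inv, ← SeparationQuotient.mk_mul, ← SeparationQuotient.mk_mul,
      SeparationQuotient.mk_eq_mk, Metric.inseparable_iff, dist_comm, dist_eq_zero_iff]
    rfl
  obtain ⟨x, y, hx, hy, ⟨n, hn⟩, hc⟩ := tsi (H := SeparationQuotient (FG μ T₀))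
    (fun w u v => by
      obtain ⟨w, rfl⟩ := SeparationQuotient.surjective_mk w
      obtain ⟨u, rfl⟩ := SeparationQuotient.surjective_mk u
      obtain ⟨v, rfl⟩ := SeparationQuotient.surjective_mk v
      exact dist_right hT w u v)
    (F := fun x => SeparationQuotient.mk (f ⟨T (r x), eT _ (ir x)⟩))
    (SeparationQuotient.continuous_mk.measurable.comp (mf.comp
      (cT.measurable.comp mr).subtype_mk)) fun x hx π => (key _ _).1 ((h _ _).1 (by
        show ConjA μ (T (r (x ∘ π))) (T (r x))
        rw [ri x hx, ri _ (hx.comp π.injective)]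
        exact pT x π))
  have := rT _ _ ((h _ _).2 ((key _ _).2 hc)) n
  rw [ri x hx, ri y hy] at this
  exact hn this

end Pool.Agent.H.MP_1b52a3_lc
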